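import Pool.Agent.Helper14.AY.GoalsB

/-! # AY, packet LGD: the averaged inverse -/

open Complex Metric Set Filter Topology MeasureTheory
open scoped ContDiff ComplexConjugate ComplexOrder Manifold Matrix

namespace Pool.Agent.Helper70.AY

open Pool.Agent.Helper95.Lin Pool.Agent.Helper16.Abund Pool.Agent.Helper92.Orb Pool.Agent.Helper10.SP
  Pool.Agent.Helper95.RK Pool.Agent.Helper57.HS Pool.Agent.Helper14.AY

namespace Lgd

variable {n : ℕ} {lam : ℝ} {Q Q' K : Matrix (Fin n) (Fin n) ℂ}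

/-- eigenvalues between `lam` and `1/lam` -/
def Bdd (lam : ℝ) (Q : Matrix (Fin n) (Fin n) ℂ) : Prop :=
  MLe ((lam : ℂ) • 1) Q ∧ MLe Q (((lam⁻¹ : ℝ) : ℂ) • 1)

/-- the segment -/
noncomputable def seg (Q Q' : Matrix (Fin n) (Fin n) ℂ) (z : ℂ) : Matrix (Fin n) (Fin n) ℂ :=
  Q + z • (Q' - Q)

theorem bdd_seg (h : Bdd lam Q) (h' : Bdd lam Q') {s : ℝ} (h0 : 0 ≤ s) (h1 : s ≤ 1) :
    Bdd lam (seg Q Q' (s : ℂ)) := by
  have a0 : (0 : ℂ) ≤ (s : ℂ) := Complex.zero_le_real.2 h0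
  have a1 : (0 : ℂ) ≤ ((1 - s : ℝ) : ℂ) := Complex.zero_le_real.2 (by linarith)
  constructor
  · have e : seg Q Q' (s : ℂ) - (lam : ℂ) • 1 =
        ((1 - s : ℝ) : ℂ) • (Q - (lam : ℂ) • 1) + (s : ℂ) • (Q' - (lam : ℂ) • 1) := by
      unfold seg
      push_cast
      module
    unfold MLe
    rw [e]
    exact (h.1.smul a1).add (h'.1.smul a0)
  · have e : (((lam⁻¹ : ℝ) : ℂ) • 1 : Matrix (Fin n) (Fin n) ℂ) - seg Q Q' (s : ℂ) =
        ((1 - s : ℝ) : ℂ) • ((((lam⁻¹ : ℝ) : ℂ) • 1) - Q) +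
          (s : ℂ) • ((((lam⁻¹ : ℝ) : ℂ) • 1) - Q') := by
      unfold seg
      push_cast
      module
    unfold MLe
    rw [e]
    exact (h.2.smul a1).add (h'.2.smul a0)

theorem bdd_posDef (hl : 0 < lam) (h : Bdd lam Q) : Q.PosDef := by
  have h1 : ((lam : ℂ) • (1 : Matrix (Fin n) (Fin n) ℂ)).PosDef :=
    Matrix.PosDef.one.smul (by exact_mod_cast hl)
  have h2 := h1.add_posSemidef h.1
  rwa [add_sub_cancel] at h2

theorem bdd_inv (hl : 0 < lam) (h : Bdd lam Q) : Bdd lam Q⁻¹ := by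
  have hp := bdd_posDef hl h
  have hu : IsUnit Q.det := hp.det_pos.ne'.isUnit
  have hKQ : Q⁻¹ * Q = 1 := Matrix.nonsing_inv_mul _ hu
  have hQK : Q * Q⁻¹ = 1 := Matrix.mul_nonsing_inv _ hu
  have hKp : (Q⁻¹).PosSemidef := hp.inv.posSemidef
  have hKH : (Q⁻¹)ᴴ = Q⁻¹ := hKp.isHermitian
  have hQH : Qᴴ = Q := hp.isHermitian
  have hlc : (lam : ℂ) ≠ 0 := by exact_mod_cast hl.ne'
  have l0 : (0 : ℂ) ≤ (lam : ℂ) := Complex.zero_le_real.2 hl.le
  set K := Q⁻¹ with hK
  constructor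
  · set E : Matrix (Fin n) (Fin n) ℂ := (((lam⁻¹ : ℝ) : ℂ) • 1) - Q with hE
    have hEp : E.PosSemidef := h.2
    have hEH : Eᴴ = E := hEp.isHermitian
    have e1 : E * K * E = (((lam⁻¹ : ℝ) : ℂ) ^ 2) • K - (2 * ((lam⁻¹ : ℝ) : ℂ)) • 1 + Q := by
      have e2 : E * K = ((lam⁻¹ : ℝ) : ℂ) • K - 1 := by
        rw [hE, Matrix.sub_mul, Matrix.smul_mul, Matrix.one_mul, hQK]
      rw [e2, hE, Matrix.mul_sub, Matrix.sub_mul, Matrix.sub_mul, Matrix.smul_mul,
        Matrix.smul_mul, Matrix.mul_smul, Matrix.mul_one, Matrix.mul_smul, Matrix.one_mul,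
        Matrix.one_mul, hKQ]
      module
    have e : K - (lam : ℂ) • 1 = ((lam : ℂ) ^ 2) • (E + E * K * E) := by
      rw [e1, hE]
      ext i j
      simp only [Matrix.sub_apply, Matrix.add_apply, Matrix.smul_apply, smul_eq_mul]
      push_cast
      field_simp
      ring
    unfold MLe
    rw [e]
    refine (hEp.add ?_).smul (by positivity)
    have := hKp.mul_mul_conjTranspose_same E
    rwa [hEH] at this
  · set D : Matrix (Fin n) (Fin n) ℂ := Q - (lam : ℂ) • 1 with hD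
    have hDp : D.PosSemidef := h.1
    have hDH : Dᴴ = D := hDp.isHermitian
    have d1 : K * D = 1 - (lam : ℂ) • K := by
      rw [hD, Matrix.mul_sub, hKQ, Matrix.mul_smul, Matrix.mul_one]
    have d2 : D * K = 1 - (lam : ℂ) • K := by
      rw [hD, Matrix.sub_mul, hQK, Matrix.smul_mul, Matrix.one_mul]
    have e : (((lam⁻¹ : ℝ) : ℂ) • 1 : Matrix (Fin n) (Fin n) ℂ) - K =
        ((lam⁻¹ : ℝ) : ℂ) • (K * D * (K * D)ᴴ + (lam : ℂ) • (K * D * Kᴴ)) := by
      rw [Matrix.conjTranspose_mul, hKH, hDH, d2, d1]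
      simp only [Matrix.sub_mul, Matrix.mul_sub, Matrix.one_mul, Matrix.mul_one,
        Matrix.smul_mul, Matrix.mul_smul]
      ext i j
      simp only [Matrix.sub_apply, Matrix.add_apply, Matrix.smul_apply, smul_eq_mul]
      push_cast
      field_simp
      ring
    unfold MLe
    rw [e]
    have l1 : (0 : ℂ) ≤ ((lam⁻¹ : ℝ) : ℂ) := Complex.zero_le_real.2 (inv_pos.2 hl).le
    exact ((Matrix.posSemidef_self_mul_conjTranspose (K * D)).add
      ((hDp.mul_mul_conjTranspose_same K).smul l0)).smul l1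

theorem entry_le (hl : 0 < lam) (h : Bdd lam Q) (i j : Fin n) : ‖Q i j‖ ≤ lam⁻¹ := by
  have hp : Q.PosSemidef := (bdd_posDef hl h).posSemidef
  have hH := hp.isHermitian
  have h1 := (hp.submatrix ![i, j]).det_nonneg
  rw [Matrix.det_fin_two] at h1
  simp only [Matrix.submatrix_apply, Matrix.cons_val_zero, Matrix.cons_val_one] at h1
  have hji : Q j i = conj (Q i j) := (hH.apply j i).symm
  have hd : ∀ k, (Q k k).im = 0 ∧ 0 ≤ (Q k k).re ∧ (Q k k).re ≤ lam⁻¹ := by
    intro k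
    have a1 := hp.diag_nonneg (i := k)
    have a2 := Matrix.PosSemidef.diag_nonneg h.2 (i := k)
    rw [Complex.le_def] at a1 a2
    simp only [Matrix.sub_apply, Matrix.smul_apply, Matrix.one_apply_eq, smul_eq_mul, mul_one,
      Complex.sub_re, Complex.ofReal_re, Complex.zero_re, Complex.zero_im] at a1 a2
    exact ⟨a1.2.symm, a1.1, by linarith [a2.1]⟩
  have h2 : ‖Q i j‖ ^ 2 ≤ (Q i i).re * (Q j j).re := by
    rw [hji, Complex.mul_conj, Complex.le_def] at h1
    have h3 := h1.1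
    rw [Complex.sub_re, Complex.mul_re, (hd i).1, zero_mul, sub_zero, Complex.ofReal_re,
      Complex.normSq_eq_norm_sq, Complex.zero_re] at h3
    linarith
  have h4 : ‖Q i j‖ ^ 2 ≤ lam⁻¹ ^ 2 := by
    refine h2.trans ?_
    rw [pow_two]
    exact mul_le_mul (hd i).2.2 (hd j).2.2 (hd j).2.1 (inv_pos.2 hl).le
  exact (abs_le_of_sq_le_sq' h4 (inv_pos.2 hl).le).2

theorem det_hasDerivAt (A B : Matrix (Fin n) (Fin n) ℂ) (z₀ : ℂ) (h : (A + z₀ • B).det ≠ 0) :
    HasDerivAt (fun z : ℂ => (A + z • B).det)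
      ((A + z₀ • B).det * Matrix.trace ((A + z₀ • B)⁻¹ * B)) z₀ := by
  set C := A + z₀ • B with hC
  have hu : IsUnit C.det := h.isUnit
  set P := (Matrix.det (1 + (Polynomial.X : Polynomial ℂ) •
    (C⁻¹ * B).map Polynomial.C)).divX.divX with hP
  have e : ∀ z : ℂ, (A + z • B).det = C.det * (1 + Matrix.trace (C⁻¹ * B) * (z - z₀) +
      P.eval (z - z₀) * (z - z₀) ^ 2) := by
    intro z
    have e1 : A + z • B = C * (1 + (z - z₀) • (C⁻¹ * B)) := by
      rw [Matrix.mul_add, Matrix.mul_one, Matrix.mul_smul, ← Matrix.mul_assoc,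
        Matrix.mul_nonsing_inv _ hu, Matrix.one_mul, hC]
      module
    rw [e1, Matrix.det_mul, Matrix.det_one_add_smul]
  have hd : HasDerivAt (fun w : ℂ => C.det * (1 + Matrix.trace (C⁻¹ * B) * w +
      P.eval w * w ^ 2)) (C.det * Matrix.trace (C⁻¹ * B)) 0 := by
    have h1 : HasDerivAt (fun w : ℂ => P.eval w * w ^ 2) 0 0 := by
      have := (P.hasDerivAt 0).fun_mul (hasDerivAt_pow 2 (0 : ℂ))
      simpa using this
    have h2 : HasDerivAt (fun w : ℂ => 1 + Matrix.trace (C⁻¹ * B) * w)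
        (Matrix.trace (C⁻¹ * B)) 0 := by
      have := ((hasDerivAt_id (0 : ℂ)).const_mul (Matrix.trace (C⁻¹ * B))).const_add 1
      simpa using this
    have := (h2.add h1).const_mul C.det
    simpa using this
  have hd2 : HasDerivAt (fun w : ℂ => C.det * (1 + Matrix.trace (C⁻¹ * B) * w +
      P.eval w * w ^ 2)) (C.det * Matrix.trace (C⁻¹ * B)) (z₀ - z₀) := by
    rwa [sub_self]
  have hd3 := HasDerivAt.comp_sub_const z₀ z₀ hd2
  refine hd3.congr_of_eventuallyEq (Eventually.of_forall fun z => ?_)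
  exact e z

theorem seg_cont (Q Q' : Matrix (Fin n) (Fin n) ℂ) : Continuous fun s : ℝ => seg Q Q' (s : ℂ) := by
  unfold seg
  exact continuous_const.add (Complex.continuous_ofReal.smul continuous_const)

theorem inv_entry_cont (hl : 0 < lam) (h : Bdd lam Q) (h' : Bdd lam Q') (i j : Fin n) :
    ContinuousOn (fun s : ℝ => (seg Q Q' (s : ℂ))⁻¹ i j) (Icc 0 1) := by
  have e : ∀ s : ℝ, (seg Q Q' (s : ℂ))⁻¹ i j =
      ((seg Q Q' (s : ℂ)).det)⁻¹ * (seg Q Q' (s : ℂ)).adjugate i j := by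
    intro s
    rw [Matrix.inv_def, Matrix.smul_apply, smul_eq_mul, Ring.inverse_eq_inv']
  simp only [e]
  have hc := seg_cont Q Q'
  refine ContinuousOn.mul (ContinuousOn.inv₀ hc.matrix_det.continuousOn fun s hs => ?_) ?_
  · exact (bdd_posDef hl (bdd_seg h h' hs.1 hs.2)).det_pos.ne'
  · exact (hc.matrix_adjugate.matrix_elem i j).continuousOn

/-- the entrywise integral over `[0, 1]` -/
noncomputable def mint (P : ℝ → Matrix (Fin n) (Fin n) ℂ) : Matrix (Fin n) (Fin n) ℂ :=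
  Matrix.of fun i j => ∫ s in (0 : ℝ)..1, P s i j

theorem ii_of_cont {f : ℝ → ℂ} (hf : ContinuousOn f (Icc 0 1)) :
    IntervalIntegrable f volume 0 1 :=
  ContinuousOn.intervalIntegrable (by rwa [uIcc_of_le zero_le_one])

theorem posSemidef_mint {P : ℝ → Matrix (Fin n) (Fin n) ℂ}
    (hc : ∀ i j, ContinuousOn (fun s => P s i j) (Icc 0 1))
    (hp : ∀ s ∈ Icc (0 : ℝ) 1, (P s).PosSemidef) : (mint P).PosSemidef := by
  refine Matrix.PosSemidef.of_dotProduct_mulVec_nonneg ?_ ?_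
  · ext i j
    rw [Matrix.conjTranspose_apply]
    unfold mint
    simp only [Matrix.of_apply]
    have hcj : conj (∫ s in (0 : ℝ)..1, P s j i) = ∫ s in (0 : ℝ)..1, conj (P s j i) := by
      rw [intervalIntegral.integral_of_le zero_le_one,
        intervalIntegral.integral_of_le zero_le_one, integral_conj]
    rw [Complex.star_def, hcj]
    refine intervalIntegral.integral_congr fun s hs => ?_
    rw [uIcc_of_le zero_le_one] at hs
    exact (hp s hs).isHermitian.apply i j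
  · intro z
    have e : star z ⬝ᵥ (mint P *ᵥ z) = ∫ s in (0 : ℝ)..1, star z ⬝ᵥ (P s *ᵥ z) := by
      unfold dotProduct Matrix.mulVec dotProduct
      rw [intervalIntegral.integral_finsetSum]
      · refine Finset.sum_congr rfl fun i _ => ?_
        rw [intervalIntegral.integral_const_mul, intervalIntegral.integral_finsetSum]
        · congr 1
          refine Finset.sum_congr rfl fun j _ => ?_
          rw [intervalIntegral.integral_mul_const]
          rfl
        · exact fun j _ => (ii_of_cont (hc i j)).mul_const _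
      · intro i _
        refine ii_of_cont ?_
        exact continuousOn_const.mul (continuousOn_finsetSum _ fun j _ =>
          (hc i j).mul continuousOn_const)
    have e2 : ∫ s in (0 : ℝ)..1, star z ⬝ᵥ (P s *ᵥ z) =
        ∫ s in (0 : ℝ)..1, (((star z ⬝ᵥ (P s *ᵥ z)).re : ℝ) : ℂ) := by
      refine intervalIntegral.integral_congr fun s hs => ?_
      rw [uIcc_of_le zero_le_one] at hs
      have h0 := (hp s hs).dotProduct_mulVec_nonneg z
      rw [Complex.le_def] at h0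
      exact Complex.ext (by simp) (by simpa using h0.2.symm)
    rw [e, e2, intervalIntegral.integral_ofReal]
    refine Complex.zero_le_real.2 ?_
    refine intervalIntegral.integral_nonneg zero_le_one fun s hs => ?_
    have h0 := (hp s hs).dotProduct_mulVec_nonneg z
    rw [Complex.le_def] at h0
    exact h0.1

end Lgd

open Lgd in
theorem lgd : S_LGD := by
  intro n lam hl
  refine ⟨lam⁻¹ + lam⁻¹ ^ 2, fun Q Q' => mint fun s => (seg Q Q' (s : ℂ))⁻¹, ?_⟩
  intro Q Q' h1 h2 h3 h4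
  have hQ : Bdd lam Q := ⟨h1, h2⟩
  have hQ' : Bdd lam Q' := ⟨h3, h4⟩
  have hl' : 0 < lam⁻¹ := inv_pos.2 hl
  have hc := inv_entry_cont hl hQ hQ'
  have hb : ∀ s ∈ Icc (0 : ℝ) 1, Bdd lam (seg Q Q' (s : ℂ))⁻¹ := fun s hs =>
    bdd_inv hl (bdd_seg hQ hQ' hs.1 hs.2)
  refine ⟨⟨?_, ?_⟩, ?_, ?_, ?_⟩
  · have hp := posSemidef_mint (P := fun s => (seg Q Q' (s : ℂ))⁻¹ - (lam : ℂ) • 1)
      (fun i j => (hc i j).sub continuousOn_const) fun s hs => (hb s hs).1
    have e : mint (fun s : ℝ => (seg Q Q' (s : ℂ))⁻¹ - (lam : ℂ) • 1) =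
        mint (fun s => (seg Q Q' (s : ℂ))⁻¹) - (lam : ℂ) • 1 := by
      ext i j
      unfold mint
      simp only [Matrix.of_apply, Matrix.sub_apply]
      rw [intervalIntegral.integral_sub (ii_of_cont (hc i j)) (by simp)]
      simp
    rw [e] at hp
    exact hp
  · have hp := posSemidef_mint (P := fun s => (((lam⁻¹ : ℝ) : ℂ) • 1) - (seg Q Q' (s : ℂ))⁻¹)
      (fun i j => continuousOn_const.sub (hc i j)) fun s hs => (hb s hs).2
    have e : mint (fun s : ℝ => (((lam⁻¹ : ℝ) : ℂ) • 1) - (seg Q Q' (s : ℂ))⁻¹) =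
        (((lam⁻¹ : ℝ) : ℂ) • 1) - mint (fun s => (seg Q Q' (s : ℂ))⁻¹) := by
      ext i j
      unfold mint
      simp only [Matrix.of_apply, Matrix.sub_apply]
      rw [intervalIntegral.integral_sub (by simp) (ii_of_cont (hc i j))]
      simp
    rw [e] at hp
    exact hp
  · -- the identity
    set D := Q' - Q with hD
    have hQH : Q.IsHermitian := (bdd_posDef hl hQ).isHermitian
    have hQ'H : Q'.IsHermitian := (bdd_posDef hl hQ').isHermitian
    have hDH : D.IsHermitian := hQ'H.sub hQH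
    have hpd : ∀ s ∈ Icc (0 : ℝ) 1, (seg Q Q' (s : ℂ)).PosDef := fun s hs =>
      bdd_posDef hl (bdd_seg hQ hQ' hs.1 hs.2)
    have htr : ∀ s ∈ Icc (0 : ℝ) 1, (Matrix.trace ((seg Q Q' (s : ℂ))⁻¹ * D)).im = 0 := by
      intro s hs
      have hH : ((seg Q Q' (s : ℂ))⁻¹)ᴴ = (seg Q Q' (s : ℂ))⁻¹ := (hpd s hs).inv.isHermitian
      have e : star (Matrix.trace ((seg Q Q' (s : ℂ))⁻¹ * D)) =
          Matrix.trace ((seg Q Q' (s : ℂ))⁻¹ * D) := by
        rw [← Matrix.trace_conjTranspose, Matrix.conjTranspose_mul, hH, hDH.eq,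
          Matrix.trace_mul_comm]
      exact Complex.conj_eq_iff_im.1 e
    have hder : ∀ s ∈ uIcc (0 : ℝ) 1, HasDerivAt (fun s : ℝ =>
        Real.log (seg Q Q' (s : ℂ)).det.re) (Matrix.trace ((seg Q Q' (s : ℂ))⁻¹ * D)).re s := by
      intro s hs
      rw [uIcc_of_le zero_le_one] at hs
      have hdp := (hpd s hs).det_pos
      rw [Complex.lt_def] at hdp
      have hne : (seg Q Q' (s : ℂ)).det ≠ 0 := (hpd s hs).det_pos.ne'
      have d1 : HasDerivAt (fun z : ℂ => (Q + z • D).det)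
        ((seg Q Q' (s : ℂ)).det * Matrix.trace ((seg Q Q' (s : ℂ))⁻¹ * D)) (s : ℂ) :=
        det_hasDerivAt Q D (s : ℂ) hne
      have d2 := d1.comp_ofReal
      have d3 : HasDerivAt (fun s : ℝ => (seg Q Q' (s : ℂ)).det.re)
          ((seg Q Q' (s : ℂ)).det * Matrix.trace ((seg Q Q' (s : ℂ))⁻¹ * D)).re s :=
        (Complex.reCLM.hasFDerivAt.comp_hasDerivAt s d2)
      have hre : 0 < (seg Q Q' (s : ℂ)).det.re := by simpa using hdp.1
      have him : (seg Q Q' (s : ℂ)).det.im = 0 := by simpa using hdp.2.symm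
      have d4 := d3.log hre.ne'
      rw [Complex.mul_re, him, zero_mul, sub_zero, mul_div_cancel_left₀ _ hre.ne'] at d4
      exact d4
    have hcT : ContinuousOn (fun s : ℝ => Matrix.trace ((seg Q Q' (s : ℂ))⁻¹ * D)) (Icc 0 1) := by
      unfold Matrix.trace
      simp only [Matrix.diag_apply, Matrix.mul_apply]
      exact continuousOn_finsetSum _ fun i _ => continuousOn_finsetSum _ fun j _ =>
        (hc i j).mul continuousOn_const
    have hFTC := intervalIntegral.integral_eq_sub_of_hasDerivAt hder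
      (ContinuousOn.intervalIntegrable (by
        rw [uIcc_of_le zero_le_one]
        exact Complex.continuous_re.comp_continuousOn hcT))
    have s1 : seg Q Q' ((1 : ℝ) : ℂ) = Q' := by
      unfold seg
      simp
    have s0 : seg Q Q' ((0 : ℝ) : ℂ) = Q := by
      unfold seg
      simp
    rw [s1, s0] at hFTC
    rw [← hFTC, ← intervalIntegral.integral_ofReal]
    have e1 : ∫ s in (0 : ℝ)..1, (((Matrix.trace ((seg Q Q' (s : ℂ))⁻¹ * D)).re : ℝ) : ℂ) =
        ∫ s in (0 : ℝ)..1, Matrix.trace ((seg Q Q' (s : ℂ))⁻¹ * D) := by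
      refine intervalIntegral.integral_congr fun s hs => ?_
      rw [uIcc_of_le zero_le_one] at hs
      exact Complex.ext (by simp) (by simpa using (htr s hs).symm)
    rw [e1]
    unfold Matrix.trace
    simp only [Matrix.diag_apply, Matrix.mul_apply]
    rw [intervalIntegral.integral_finsetSum]
    · refine Finset.sum_congr rfl fun i _ => ?_
      rw [intervalIntegral.integral_finsetSum]
      · refine Finset.sum_congr rfl fun j _ => ?_
        rw [intervalIntegral.integral_mul_const]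
        rfl
      · exact fun j _ => (ii_of_cont (hc i j)).mul_const _
    · exact fun i _ => ii_of_cont (continuousOn_finsetSum _ fun j _ =>
        (hc i j).mul continuousOn_const)
  · intro i j
    have h5 := intervalIntegral.norm_integral_le_of_norm_le_const (a := (0 : ℝ)) (b := 1)
      (f := fun s : ℝ => (seg Q Q' (s : ℂ))⁻¹ i j) (C := lam⁻¹) (fun s hs => by
        rw [uIoc_of_le zero_le_one] at hs
        exact entry_le hl (hb s ⟨hs.1.le, hs.2⟩) i j)
    rw [sub_zero, abs_one, mul_one] at h5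
    exact h5.trans (by nlinarith [sq_nonneg lam⁻¹])
  · intro Q₁ Q₁' g1 g2 g3 g4 i j
    have hQ₁ : Bdd lam Q₁ := ⟨g1, g2⟩
    have hQ₁' : Bdd lam Q₁' := ⟨g3, g4⟩
    have hc₁ := inv_entry_cont hl hQ₁ hQ₁'
    set S := ∑ p, ∑ q, (‖Q p q - Q₁ p q‖ + ‖Q' p q - Q₁' p q‖) with hS
    have e0 : mint (fun s : ℝ => (seg Q Q' (s : ℂ))⁻¹) i j -
        mint (fun s : ℝ => (seg Q₁ Q₁' (s : ℂ))⁻¹) i j =
        ∫ s in (0 : ℝ)..1, ((seg Q Q' (s : ℂ))⁻¹ i j - (seg Q₁ Q₁' (s : ℂ))⁻¹ i j) := by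
      rw [intervalIntegral.integral_sub (ii_of_cont (hc i j)) (ii_of_cont (hc₁ i j))]
      rfl
    show ‖mint (fun s : ℝ => (seg Q Q' (s : ℂ))⁻¹) i j -
        mint (fun s : ℝ => (seg Q₁ Q₁' (s : ℂ))⁻¹) i j‖ ≤ _
    rw [e0]
    have h5 := intervalIntegral.norm_integral_le_of_norm_le_const (a := (0 : ℝ)) (b := 1)
      (f := fun s : ℝ => (seg Q Q' (s : ℂ))⁻¹ i j - (seg Q₁ Q₁' (s : ℂ))⁻¹ i j)
      (C := lam⁻¹ ^ 2 * S) (fun s hs => by
        rw [uIoc_of_le zero_le_one] at hs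
        have hs' : s ∈ Icc (0 : ℝ) 1 := ⟨hs.1.le, hs.2⟩
        have p1 : Bdd lam (seg Q Q' (s : ℂ)) := bdd_seg hQ hQ' hs'.1 hs'.2
        have p2 : Bdd lam (seg Q₁ Q₁' (s : ℂ)) := bdd_seg hQ₁ hQ₁' hs'.1 hs'.2
        have u1 : IsUnit (seg Q Q' (s : ℂ)).det := (bdd_posDef hl p1).det_pos.ne'.isUnit
        have u2 : IsUnit (seg Q₁ Q₁' (s : ℂ)).det := (bdd_posDef hl p2).det_pos.ne'.isUnit
        have e1 : (seg Q Q' (s : ℂ))⁻¹ - (seg Q₁ Q₁' (s : ℂ))⁻¹ = (seg Q Q' (s : ℂ))⁻¹ *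
            ((seg Q₁ Q₁' (s : ℂ) - seg Q Q' (s : ℂ)) * (seg Q₁ Q₁' (s : ℂ))⁻¹) := by
          rw [Matrix.sub_mul, Matrix.mul_nonsing_inv _ u2, Matrix.mul_sub, Matrix.mul_one,
            ← Matrix.mul_assoc, Matrix.nonsing_inv_mul _ u1, Matrix.one_mul]
        have e2 : (seg Q Q' (s : ℂ))⁻¹ i j - (seg Q₁ Q₁' (s : ℂ))⁻¹ i j =
            ∑ p, ∑ q, (seg Q Q' (s : ℂ))⁻¹ i p * ((seg Q₁ Q₁' (s : ℂ) - seg Q Q' (s : ℂ)) p q *
              (seg Q₁ Q₁' (s : ℂ))⁻¹ q j) := by
          have := congrFun (congrFun e1 i) j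
          rw [Matrix.sub_apply] at this
          rw [this, Matrix.mul_apply]
          refine Finset.sum_congr rfl fun p _ => ?_
          rw [Matrix.mul_apply, Finset.mul_sum]
        show ‖(seg Q Q' (s : ℂ))⁻¹ i j - (seg Q₁ Q₁' (s : ℂ))⁻¹ i j‖ ≤ _
        rw [e2, hS, Finset.mul_sum]
        refine (norm_sum_le _ _).trans (Finset.sum_le_sum fun p _ => ?_)
        rw [Finset.mul_sum]
        refine (norm_sum_le _ _).trans (Finset.sum_le_sum fun q _ => ?_)
        rw [norm_mul, norm_mul]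
        have b1 := entry_le hl (bdd_inv hl p1) i p
        have b2 := entry_le hl (bdd_inv hl p2) q j
        have b3 : ‖(seg Q₁ Q₁' (s : ℂ) - seg Q Q' (s : ℂ)) p q‖ ≤
            ‖Q p q - Q₁ p q‖ + ‖Q' p q - Q₁' p q‖ := by
          have e3 : (seg Q₁ Q₁' (s : ℂ) - seg Q Q' (s : ℂ)) p q =
              -(((1 - s : ℝ) : ℂ) * (Q p q - Q₁ p q) + (s : ℂ) * (Q' p q - Q₁' p q)) := by
            unfold seg
            simp only [Matrix.sub_apply, Matrix.add_apply, Matrix.smul_apply, smul_eq_mul]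
            push_cast
            ring
          rw [e3, norm_neg]
          refine (norm_add_le _ _).trans (add_le_add ?_ ?_)
          · rw [norm_mul, Complex.norm_real, Real.norm_eq_abs, abs_of_nonneg (by linarith [hs'.2])]
            exact mul_le_of_le_one_left (norm_nonneg _) (by linarith [hs'.1])
          · rw [norm_mul, Complex.norm_real, Real.norm_eq_abs, abs_of_nonneg hs'.1]
            exact mul_le_of_le_one_left (norm_nonneg _) hs'.2
        calc ‖(seg Q Q' (s : ℂ))⁻¹ i p‖ * (‖(seg Q₁ Q₁' (s : ℂ) - seg Q Q' (s : ℂ)) p q‖ *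
              ‖(seg Q₁ Q₁' (s : ℂ))⁻¹ q j‖) ≤
              lam⁻¹ * ((‖Q p q - Q₁ p q‖ + ‖Q' p q - Q₁' p q‖) * lam⁻¹) := by
              refine mul_le_mul b1 (mul_le_mul b3 b2 (norm_nonneg _) (by positivity))
                (by positivity) hl'.le
          _ = _ := by ring)
    rw [sub_zero, abs_one, mul_one] at h5
    refine h5.trans ?_
    have hS0 : 0 ≤ S := Finset.sum_nonneg fun p _ => Finset.sum_nonneg fun q _ => by positivity
    exact mul_le_mul_of_nonneg_right (by linarith) hS0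

end Pool.Agent.Helper70.AY
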