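import Pool.Agent.Helper14.AY.GoalsB

/-! # AY, packet HCA: local Hölder classes -/

open Complex Metric Set Filter Topology MeasureTheory
open scoped ContDiff ComplexConjugate ComplexOrder Manifold Matrix

set_option linter.unusedSectionVars false

namespace Pool.Agent.Helper70.AY

open Pool.Agent.Helper95.Lin Pool.Agent.Helper16.Abund Pool.Agent.Helper92.Orb Pool.Agent.Helper10.SP
  Pool.Agent.Helper95.RK Pool.Agent.Helper57.HS Pool.Agent.Helper14.AY

section general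

variable {n : ℕ} {a : ℝ} {W : Set (Cn n)} {E : Type} [NormedAddCommGroup E] [NormedSpace ℝ E]

theorem HB.mono_K {S : Set (Cn n)} {K K' : ℝ} {f : Cn n → E} (h : HB a S K f) (hK : K ≤ K') :
    HB a S K' f := fun x hx y hy =>
  (h x hx y hy).trans (mul_le_mul_of_nonneg_right hK (Real.rpow_nonneg (norm_nonneg _) _))

theorem HB.mono_S {S S' : Set (Cn n)} {K : ℝ} {f : Cn n → E} (h : HB a S K f) (hS : S' ⊆ S) :
    HB a S' K f := fun x hx y hy => h x (hS hx) y (hS hy)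

theorem lh_of_c1 (ha : 0 < a) (ha1 : a ≤ 1) (hW : IsOpen W) {f : Cn n → E}
    (hf : ContDiffOn ℝ 1 f W) : LH a W f := by
  intro x hx
  obtain ⟨K, t, ht, hK⟩ := (hf.contDiffAt (hW.mem_nhds hx)).exists_lipschitzOnWith
  refine ⟨t ∩ ball x (1 / 2), Filter.inter_mem ht (ball_mem_nhds x (by norm_num)), K, ?_⟩
  rintro y ⟨hy, hy2⟩ z ⟨hz, hz2⟩
  have h1 : ‖f y - f z‖ ≤ K * ‖y - z‖ := by
    have := hK.dist_le_mul y hy z hz
    rwa [dist_eq_norm, dist_eq_norm] at this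
  refine h1.trans (mul_le_mul_of_nonneg_left ?_ K.2)
  have h2 : ‖y - z‖ ≤ 1 := by
    rw [← dist_eq_norm]
    have e1 := mem_ball.1 hy2
    have e2 := mem_ball'.1 hz2
    have := dist_triangle y x z
    linarith
  rcases eq_or_lt_of_le (norm_nonneg (y - z)) with h0 | h0
  · rw [← h0, Real.zero_rpow ha.ne']
  · conv_lhs => rw [← Real.rpow_one ‖y - z‖]
    exact Real.rpow_le_rpow_of_exponent_ge h0 h2 ha1

theorem lh_congr (hW : IsOpen W) {f g : Cn n → E} (h : ∀ x ∈ W, f x = g x) (hf : LH a W f) :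
    LH a W g := by
  intro x hx
  obtain ⟨U, hU, K, hK⟩ := hf x hx
  refine ⟨U ∩ W, Filter.inter_mem hU (hW.mem_nhds hx), K, ?_⟩
  rintro y ⟨hy, hyW⟩ z ⟨hz, hzW⟩
  rw [← h y hyW, ← h z hzW]
  exact hK y hy z hz

theorem hk_congr (hW : IsOpen W) (k : ℕ) : ∀ {f g : Cn n → E}, (∀ x ∈ W, f x = g x) →
    Hk a W k f → Hk a W k g := by
  induction k with
  | zero => exact fun h hf => lh_congr hW h hf
  | succ k ih =>
    intro f g h hf
    refine ⟨hf.1.congr fun x hx => (h x hx).symm, fun v => ?_⟩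
    refine ih (fun x hx => ?_) (hf.2 v)
    have : f =ᶠ[𝓝 x] g := eventually_of_mem (hW.mem_nhds hx) h
    rw [this.fderiv_eq]

theorem hk_mono (k : ℕ) {V : Set (Cn n)} (hV : V ⊆ W) : ∀ {f : Cn n → E},
    Hk a W k f → Hk a V k f := by
  induction k with
  | zero => exact fun hf x hx => hf x (hV hx)
  | succ k ih => exact fun hf => ⟨hf.1.mono hV, fun v => ih (hf.2 v)⟩

theorem hk_pred (ha : 0 < a) (ha1 : a ≤ 1) (hW : IsOpen W) (k : ℕ) : ∀ {f : Cn n → E},
    Hk a W (k + 1) f → Hk a W k f := by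
  induction k with
  | zero => exact fun hf => lh_of_c1 ha ha1 hW hf.1
  | succ k ih => exact fun hf => ⟨hf.1, fun v => ih (hf.2 v)⟩

theorem hk_smooth (ha : 0 < a) (ha1 : a ≤ 1) (hW : IsOpen W) (k : ℕ) : ∀ {f : Cn n → E},
    ContDiffOn ℝ ∞ f W → Hk a W k f := by
  induction k with
  | zero => exact fun hf => lh_of_c1 ha ha1 hW (hf.of_le (by exact_mod_cast le_top))
  | succ k ih =>
    intro f hf
    refine ⟨hf.of_le (by exact_mod_cast le_top), fun v => ih ?_⟩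
    exact (hf.fderiv_of_isOpen hW (by simp)).clm_apply contDiffOn_const

theorem lh_add {f g : Cn n → E} (hf : LH a W f) (hg : LH a W g) :
    LH a W fun x => f x + g x := by
  intro x hx
  obtain ⟨U, hU, K, hK⟩ := hf x hx
  obtain ⟨U', hU', K', hK'⟩ := hg x hx
  refine ⟨U ∩ U', Filter.inter_mem hU hU', K + K', ?_⟩
  rintro y ⟨hy, hy'⟩ z ⟨hz, hz'⟩
  have h1 := hK y hy z hz
  have h2 := hK' y hy' z hz'
  calc ‖f y + g y - (f z + g z)‖ = ‖(f y - f z) + (g y - g z)‖ := by congr 1; abel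
    _ ≤ ‖f y - f z‖ + ‖g y - g z‖ := norm_add_le _ _
    _ ≤ K * ‖y - z‖ ^ a + K' * ‖y - z‖ ^ a := add_le_add h1 h2
    _ = _ := by ring

theorem hk_diff (hW : IsOpen W) {k : ℕ} {f : Cn n → E} (hf : Hk a W (k + 1) f) {x : Cn n}
    (hx : x ∈ W) : DifferentiableAt ℝ f x :=
  (hf.1.contDiffAt (hW.mem_nhds hx)).differentiableAt (by simp)

theorem hk_add (hW : IsOpen W) (k : ℕ) : ∀ {f g : Cn n → E}, Hk a W k f → Hk a W k g →
    Hk a W k fun x => f x + g x := by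
  induction k with
  | zero => exact fun hf hg => lh_add hf hg
  | succ k ih =>
    intro f g hf hg
    refine ⟨hf.1.add hg.1, fun v => ?_⟩
    refine hk_congr hW k (fun x hx => ?_) (ih (hf.2 v) (hg.2 v))
    rw [fderiv_fun_add (hk_diff hW hf hx) (hk_diff hW hg hx)]
    rfl

theorem hk_lin (hW : IsOpen W) {F : Type} [NormedAddCommGroup F] [NormedSpace ℝ F]
    (L : E →L[ℝ] F) (k : ℕ) : ∀ {f : Cn n → E}, Hk a W k f → Hk a W k fun x => L (f x) := by
  induction k with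
  | zero =>
    intro f hf x hx
    obtain ⟨U, hU, K, hK⟩ := hf x hx
    refine ⟨U, hU, ‖L‖ * K, fun y hy z hz => ?_⟩
    rw [← map_sub, mul_assoc]
    exact (L.le_opNorm _).trans (mul_le_mul_of_nonneg_left (hK y hy z hz) (norm_nonneg _))
  | succ k ih =>
    intro f hf
    refine ⟨L.contDiff.comp_contDiffOn hf.1, fun v => ?_⟩
    refine hk_congr hW k (fun x hx => ?_) (ih (hf.2 v))
    have h1 : HasFDerivAt (fun y => L (f y)) (L.comp (fderiv ℝ f x)) x :=
      L.hasFDerivAt.comp x (hk_diff hW hf hx).hasFDerivAt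
    rw [h1.fderiv]
    rfl

theorem lh_bdd {f : Cn n → E} (hf : LH a W f) (ha : 0 < a) {x : Cn n} (hx : x ∈ W) :
    ∃ U ∈ 𝓝 x, ∃ K B : ℝ, 0 ≤ K ∧ 0 ≤ B ∧ HB a U K f ∧ ∀ y ∈ U, ‖f y‖ ≤ B := by
  obtain ⟨U, hU, K, hK⟩ := hf x hx
  have hxU : x ∈ U := mem_of_mem_nhds hU
  have hK' : HB a U |K| f := HB.mono_K hK (le_abs_self K)
  refine ⟨U ∩ ball x 1, Filter.inter_mem hU (ball_mem_nhds x one_pos), |K|, ‖f x‖ + |K|,
    abs_nonneg _, by positivity, HB.mono_S hK' inter_subset_left, ?_⟩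
  rintro y ⟨hy, hy1⟩
  have h1 := hK' y hy x hxU
  have h2 : ‖y - x‖ ^ a ≤ 1 := by
    have : ‖y - x‖ ≤ 1 := by
      rw [← dist_eq_norm]
      exact (mem_ball.1 hy1).le
    exact Real.rpow_le_one (norm_nonneg _) this ha.le
  have h3 : ‖f y‖ ≤ ‖f x‖ + ‖f y - f x‖ := by
    have := norm_add_le (f x) (f y - f x)
    rwa [add_sub_cancel] at this
  nlinarith [abs_nonneg K]

theorem lh_cont {f : Cn n → E} (hf : LH a W f) (ha : 0 < a) : ContinuousOn f W := by
  intro x hx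
  obtain ⟨U, hU, K, hK⟩ := hf x hx
  have hxU : x ∈ U := mem_of_mem_nhds hU
  refine ContinuousAt.continuousWithinAt ?_
  rw [ContinuousAt, tendsto_iff_norm_sub_tendsto_zero]
  have h1 : Tendsto (fun y => K * ‖y - x‖ ^ a) (𝓝 x) (𝓝 0) := by
    have h2 : Tendsto (fun y : Cn n => ‖y - x‖) (𝓝 x) (𝓝 0) := tendsto_norm_sub_self x
    have h3 := (h2.rpow_const (Or.inr ha.le) (p := a)).const_mul K
    rwa [Real.zero_rpow ha.ne', mul_zero] at h3
  refine squeeze_zero' (Eventually.of_forall fun _ => norm_nonneg _) ?_ h1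
  filter_upwards [hU] with y hy
  exact hK y hy x hxU

theorem hk_contDiff (hW : IsOpen W) (ha : 0 < a) (k : ℕ) : ∀ {f : Cn n → E}, Hk a W k f →
    ContDiffOn ℝ k f W := by
  induction k with
  | zero =>
    intro f hf
    have h := lh_cont hf ha
    exact_mod_cast contDiffOn_zero.2 h
  | succ k ih =>
    intro f hf
    have h : ContDiffOn ℝ ((k : ℕ∞ω) + 1) f W := by
      rw [contDiffOn_succ_iff_fderiv_of_isOpen hW]
      refine ⟨hf.1.differentiableOn (by simp), by simp, ?_⟩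
      rw [contDiffOn_clm_apply]
      exact fun v => ih (hf.2 v)
    exact_mod_cast h

end general

section complex

variable {n : ℕ} {a : ℝ} {W : Set (Cn n)}

theorem lh_mul (ha : 0 < a) {f g : Cn n → ℂ} (hf : LH a W f) (hg : LH a W g) :
    LH a W fun x => f x * g x := by
  intro x hx
  obtain ⟨U, hU, K, B, hK, hB, h1, h2⟩ := lh_bdd hf ha hx
  obtain ⟨U', hU', K', B', hK', hB', h1', h2'⟩ := lh_bdd hg ha hx
  refine ⟨U ∩ U', Filter.inter_mem hU hU', B * K' + K * B', ?_⟩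
  rintro y ⟨hy, hy'⟩ z ⟨hz, hz'⟩
  have e : f y * g y - f z * g z = f y * (g y - g z) + (f y - f z) * g z := by ring
  have t0 : 0 ≤ ‖y - z‖ ^ a := Real.rpow_nonneg (norm_nonneg _) _
  calc ‖f y * g y - f z * g z‖ ≤ ‖f y‖ * ‖g y - g z‖ + ‖f y - f z‖ * ‖g z‖ := by
        rw [e]
        refine (norm_add_le _ _).trans ?_
        rw [norm_mul, norm_mul]
    _ ≤ B * (K' * ‖y - z‖ ^ a) + (K * ‖y - z‖ ^ a) * B' := by
        refine add_le_add (mul_le_mul (h2 y hy) (h1' y hy' z hz') (norm_nonneg _) hB)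
          (mul_le_mul (h1 y hy z hz) (h2' z hz') (norm_nonneg _) (mul_nonneg hK t0))
    _ = _ := by ring

theorem hk_mul (ha : 0 < a) (ha1 : a ≤ 1) (hW : IsOpen W) (k : ℕ) : ∀ {f g : Cn n → ℂ},
    Hk a W k f → Hk a W k g → Hk a W k fun x => f x * g x := by
  induction k with
  | zero => exact fun hf hg => lh_mul ha hf hg
  | succ k ih =>
    intro f g hf hg
    refine ⟨hf.1.mul hg.1, fun v => ?_⟩
    refine hk_congr hW k (fun x hx => ?_) (hk_add hW k
      (ih (hk_pred ha ha1 hW k hf) (hg.2 v)) (ih (hf.2 v) (hk_pred ha ha1 hW k hg)))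
    rw [fderiv_fun_mul (hk_diff hW hf hx) (hk_diff hW hg hx)]
    simp only [add_apply, FunLike.coe_smul, Pi.smul_apply, smul_eq_mul]
    ring

theorem lh_inv (ha : 0 < a) (hW : IsOpen W) {f : Cn n → ℂ} (h0 : ∀ x ∈ W, f x ≠ 0)
    (hf : LH a W f) : LH a W fun x => (f x)⁻¹ := by
  intro x hx
  have hc := (lh_cont hf ha).continuousAt (hW.mem_nhds hx)
  obtain ⟨U, hU, K, B, hK, hB, h1, h2⟩ := lh_bdd hf ha hx
  have hfx : 0 < ‖f x‖ := norm_pos_iff.2 (h0 x hx)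
  have h3 : ∀ᶠ y in 𝓝 x, ‖f x‖ / 2 < ‖f y‖ := by
    have := hc.norm
    exact this.eventually (lt_mem_nhds (by linarith))
  refine ⟨U ∩ {y | ‖f x‖ / 2 < ‖f y‖}, Filter.inter_mem hU h3, K * (2 / ‖f x‖) ^ 2, ?_⟩
  rintro y ⟨hy, hy'⟩ z ⟨hz, hz'⟩
  rw [Set.mem_ofPred_eq] at hy' hz'
  have ny : f y ≠ 0 := norm_pos_iff.1 (by linarith)
  have nz : f z ≠ 0 := norm_pos_iff.1 (by linarith)
  have e : (f y)⁻¹ - (f z)⁻¹ = - ((f y - f z) * ((f y)⁻¹ * (f z)⁻¹)) := by
    field_simp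
    ring
  have t0 : 0 ≤ ‖y - z‖ ^ a := Real.rpow_nonneg (norm_nonneg _) _
  have i1 : ‖f y‖⁻¹ ≤ 2 / ‖f x‖ := by
    rw [inv_le_comm₀ (by linarith) (by positivity), inv_div]
    exact hy'.le
  have i2 : ‖f z‖⁻¹ ≤ 2 / ‖f x‖ := by
    rw [inv_le_comm₀ (by linarith) (by positivity), inv_div]
    exact hz'.le
  rw [e, norm_neg, norm_mul, norm_mul, norm_inv, norm_inv]
  calc ‖f y - f z‖ * (‖f y‖⁻¹ * ‖f z‖⁻¹) ≤ (K * ‖y - z‖ ^ a) * ((2 / ‖f x‖) * (2 / ‖f x‖)) := by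
        refine mul_le_mul (h1 y hy z hz) (mul_le_mul i1 i2 (by positivity) (by positivity))
          (by positivity) (mul_nonneg hK t0)
    _ = _ := by ring

theorem hk_inv (ha : 0 < a) (ha1 : a ≤ 1) (hW : IsOpen W) (k : ℕ) : ∀ {f : Cn n → ℂ},
    (∀ x ∈ W, f x ≠ 0) → Hk a W k f → Hk a W k fun x => (f x)⁻¹ := by
  induction k with
  | zero => exact fun h0 hf => lh_inv ha hW h0 hf
  | succ k ih =>
    intro f h0 hf
    refine ⟨hf.1.inv h0, fun v => ?_⟩
    have hi := ih h0 (hk_pred ha ha1 hW k hf)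
    have h1 := hk_lin hW (-ContinuousLinearMap.id ℝ ℂ) k
      (hk_mul ha ha1 hW k (hk_mul ha ha1 hW k hi hi) (hf.2 v))
    refine hk_congr hW k (fun x hx => ?_) h1
    have hd : HasFDerivAt (fun y => (f y)⁻¹) ((-((f x) ^ 2)⁻¹) • fderiv ℝ f x) x := by
      have h2 : HasDerivAt (fun z : ℂ => z⁻¹) (-((f x) ^ 2)⁻¹) (f x) := hasDerivAt_inv (h0 x hx)
      exact h2.comp_hasFDerivAt x (hk_diff hW hf hx).hasFDerivAt
    rw [hd.fderiv]
    simp only [neg_apply, ContinuousLinearMap.id_apply, FunLike.coe_smul, Pi.smul_apply,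
      smul_eq_mul]
    rw [pow_two, mul_inv]
    ring

end complex

theorem hca : S_HCA := by
  intro n a W ha ha1 hW
  refine ⟨?_, ?_, ?_, ?_, ?_, ?_, ?_, ?_, ?_⟩
  · exact fun E _ _ f hf k => hk_smooth ha ha1 hW k hf
  · exact fun E _ _ f k hf => hk_pred ha ha1 hW k hf
  · exact fun E _ _ f k V _ hV hf => hk_mono k hV hf
  · exact fun E _ _ f g k hf hg => hk_add hW k hf hg
  · exact fun f g k hf hg => hk_mul ha ha1 hW k hf hg
  · exact fun f k h0 _ hf => hk_inv ha ha1 hW k h0 hf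
  · exact fun E F _ _ _ _ L f k hf => hk_lin hW L k hf
  · exact fun E _ _ f g k h hf => hk_congr hW k h hf
  · intro E _ _ _ f hf
    rw [contDiffOn_infty]
    exact fun k => hk_contDiff hW ha k (hf k)

end Pool.Agent.Helper70.AY
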